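import Pool.Agent.H55.PCut

open Set Filter Cardinal

namespace Pool.Agent.Results.MP_90cb67_lc.DeltaCut

/-- the dominating number equals the continuum: no family of fewer than continuum many functions
is dominating -/
def DomEq : Prop := ∀ G : Set (ℕ → ℕ), #G < 𝔠 → ∃ g : ℕ → ℕ, ∀ f ∈ G, ¬ ∀ᶠ n in atTop, g n ≤ f n

/-- internal subsets of the ultrapower -/
def Internal (F : Ultrafilter ℕ) (S : Set (Germ (F : Filter ℕ) ℕ)) : Prop :=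
  ∃ A : ℕ → Set ℕ, S = {x | ∃ n : ℕ → ℕ, x = ↑n ∧ {i | n i ∈ A i} ∈ F}

/-- the partition cut -/
def Cut (F : Ultrafilter ℕ) (P : ℕ → Set ℕ) : Set (Germ (F : Filter ℕ) ℕ) :=
  {x | ∃ n : ℕ → ℕ, x = ↑n ∧ ∀ j, BddAbove (n '' P j)}

theorem mem_cut {F : Ultrafilter ℕ} (π n : ℕ → ℕ) : (↑n : Germ (F : Filter ℕ) ℕ) ∈
    Cut F (fun j => π ⁻¹' {j}) ↔ ∃ g : ℕ → ℕ, {i | n i ≤ g (π i)} ∈ F := by
  constructor
  · rintro ⟨m, e, h⟩
    choose g hg using h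
    exact ⟨g, (Germ.coe_eq.1 e).mono fun i u => u.le.trans (hg _ ⟨i, rfl, rfl⟩)⟩
  · rintro ⟨g, h⟩
    refine ⟨fun i => min (n i) (g (π i)), Germ.coe_eq.2 (mem_of_superset h fun i u =>
      (min_eq_left u).symm), fun j => ⟨g j, ?_⟩⟩
    rintro _ ⟨i, rfl, rfl⟩
    exact min_le_right _ _

theorem mem_int {F : Ultrafilter ℕ} (A : ℕ → Set ℕ) (n : ℕ → ℕ) : (↑n : Germ (F : Filter ℕ) ℕ) ∈
    {x | ∃ n : ℕ → ℕ, x = ↑n ∧ {i | n i ∈ A i} ∈ F} ↔ {i | n i ∈ A i} ∈ F :=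
  ⟨fun ⟨m, e, h⟩ => mem_of_superset (inter_mem (Germ.coe_eq.1 e) h) fun i u =>
    show n i ∈ A i from (show n i = m i from u.1).symm ▸ u.2, fun h => ⟨n, rfl, h⟩⟩

theorem result (hd : DomEq) : ∃ (F : Ultrafilter ℕ) (P : ℕ → Set ℕ), (∀ i, {i} ∉ F) ∧
    (∀ j, (P j).Nonempty) ∧ Pairwise (fun i j => Disjoint (P i) (P j)) ∧ ⋃ j, P j = Set.univ ∧
    (∀ j, P j ∉ F) ∧ ¬ Internal F (Cut F P) ∧
    ∃ A : ℕ → Set (Germ (F : Filter ℕ) ℕ), (∀ k, Internal F (A k)) ∧ Cut F P = ⋂ k, A k := by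
  obtain ⟨U, u1, u2, u3⟩ := H55.PCut.core fun G hG => (hd G hG).imp fun g h f hf =>
    (not_eventually.1 (h f hf)).mono fun _ => not_le.1
  obtain ⟨F, π, ρ, f0, f1, f2, f3⟩ : ∃ (F : Ultrafilter ℕ) (π : ℕ → ℕ) (ρ : ℕ → ℕ → ℕ),
      π.Surjective ∧ (∀ j, π ⁻¹' {j} ∉ F) ∧ (∀ k (g : ℕ → ℕ), {i | ρ k i ≤ g (π i)} ∉ F) ∧
      ∀ x : ℕ → ℕ, (∃ g : ℕ → ℕ, {i | x i ≤ g (π i)} ∈ F) ∨ ∃ k, {i | ρ k i < x i} ∈ F := by
    have e := Denumerable.eqv (List ℕ)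
    refine ⟨U.map e, fun i => (e.symm i).length, fun k i => (e.symm i).getD k 0,
      fun j => ⟨e (List.replicate j 0), by simp⟩, fun j h => u1 j ?_, fun k g h => u2 k g ?_,
      fun x => (u3 (x ∘ e)).imp (fun ⟨g, h⟩ => ⟨g, ?_⟩) fun ⟨k, h⟩ => ⟨k, ?_⟩⟩
    · exact mem_of_superset (Ultrafilter.mem_map.1 h) fun s hs => by simpa using hs
    · exact mem_of_superset (Ultrafilter.mem_map.1 h) fun s hs => by simpa using hs
    · exact Ultrafilter.mem_map.2 (mem_of_superset h fun s hs => by simpa using hs)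
    · exact Ultrafilter.mem_map.2 (mem_of_superset h fun s hs => by simpa using hs)
  have le : ∀ k (x g : ℕ → ℕ), {i | x i ≤ g (π i)} ∈ F → {i | x i ≤ ρ k i} ∈ F := fun k x g h =>
    mem_of_superset (inter_mem h (Ultrafilter.compl_mem_iff_notMem.2 (f2 k g))) fun i u =>
      le_trans (show x i ≤ g (π i) from u.1) (not_le.1 (show ¬ ρ k i ≤ g (π i) from u.2)).le
  refine ⟨F, fun j => π ⁻¹' {j}, fun i h => f1 (π i) (mem_of_superset h fun _ u => u ▸ rfl),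
    fun j => f0 j, fun i j l => disjoint_left.2 fun z a b => l (a.symm.trans b),
    eq_univ_of_forall fun i => mem_iUnion.2 ⟨π i, rfl⟩, f1, fun ⟨A, hA⟩ => ?_,
    fun k => {x | ∃ n : ℕ → ℕ, x = ↑n ∧ {i | n i ∈ Iic (ρ k i)} ∈ F}, fun k => ⟨_, rfl⟩, ?_⟩
  · have h : ∀ n : ℕ → ℕ, (∃ g : ℕ → ℕ, {i | n i ≤ g (π i)} ∈ F) ↔ {i | n i ∈ A i} ∈ F := fun n => by
      rw [← mem_cut, hA, mem_int]
    have b : ∀ i, BddAbove (A i ∩ Iic (ρ 0 i)) := fun i => ⟨ρ 0 i, fun _ u => u.2⟩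
    obtain ⟨g, hg⟩ := (h fun i => sSup (A i ∩ Iic (ρ 0 i))).2 (mem_of_superset
      ((h fun _ => 0).1 ⟨id, univ_mem' fun _ => Nat.zero_le _⟩) fun i u =>
        (Nat.sSup_mem (s := A i ∩ Iic (ρ 0 i)) ⟨0, u, Nat.zero_le _⟩ (b i)).1)
    have k : {i | sSup (A i ∩ Iic (ρ 0 i)) + 1 ≤ g (π i) + 1} ∈ F :=
      mem_of_superset hg fun i u => Nat.succ_le_succ u
    obtain ⟨i, i1, i2⟩ := F.nonempty_of_mem (inter_mem ((h _).1 ⟨fun j => g j + 1, k⟩)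
      (le 0 _ (fun j => g j + 1) k))
    exact Nat.not_succ_le_self _ (le_csSup (b i) ⟨i1, i2⟩)
  · ext x
    induction x using Germ.inductionOn with
    | h n =>
    simp only [mem_iInter]
    rw [mem_cut]
    refine ⟨fun ⟨g, h⟩ k => (mem_int _ n).2 (le k n g h), fun h => (f3 n).resolve_right ?_⟩
    rintro ⟨k, u⟩
    obtain ⟨i, i1, i2⟩ := F.nonempty_of_mem (inter_mem u ((mem_int _ n).1 (h k)))
    exact absurd (show ρ k i < n i from i1) (not_lt.2 i2)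

end Pool.Agent.Results.MP_90cb67_lc.DeltaCut
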